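import Mathlib

/-!
# Idempotents in the algebra generated by the Frobenius correspondence
-/

open Polynomial

namespace Pool.Agent.X312.CK

/-- The part of `S` which is composed of the prime factors of `P`. -/
lemma split_part (P : ℚ[X]) : ∀ (n : ℕ) (S : ℚ[X]), S ≠ 0 → S.natDegree ≤ n →
    ∃ (A C : ℚ[X]) (N : ℕ), S = A * C ∧ IsCoprime C P ∧ A ∣ P ^ N := by
  intro n
  induction n with
  | zero =>
    intro S hS hd
    refine ⟨1, S, 0, by rw [one_mul], ?_, one_dvd _⟩
    have h1 : S.natDegree = 0 := by omega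
    have h2 : IsUnit S := by
      rw [Polynomial.isUnit_iff_degree_eq_zero, Polynomial.degree_eq_natDegree hS, h1]
      rfl
    obtain ⟨u, hu⟩ := h2
    exact ⟨(↑u⁻¹ : ℚ[X]), 0, by rw [← hu, Units.inv_mul, zero_mul, add_zero]⟩
  | succ n ih =>
    intro S hS hd
    by_cases h : IsCoprime S P
    · exact ⟨1, S, 0, by rw [one_mul], h, one_dvd _⟩
    · set D := EuclideanDomain.gcd S P with hD
      have hDS : D ∣ S := EuclideanDomain.gcd_dvd_left _ _
      have hDP : D ∣ P := EuclideanDomain.gcd_dvd_right _ _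
      have hDu : ¬ IsUnit D := fun hu => h (EuclideanDomain.gcd_isUnit_iff.1 hu)
      obtain ⟨S1, hS1⟩ := hDS
      have hD0 : D ≠ 0 := fun h0 => hS (by rw [hS1, h0, zero_mul])
      have hS10 : S1 ≠ 0 := fun h0 => hS (by rw [hS1, h0, mul_zero])
      have h1 : 0 < D.natDegree := by
        rw [Polynomial.natDegree_pos_iff_degree_pos]
        exact Polynomial.degree_pos_of_ne_zero_of_nonunit hD0 hDu
      have h2 : S.natDegree = D.natDegree + S1.natDegree := by
        rw [hS1, Polynomial.natDegree_mul hD0 hS10]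
      obtain ⟨A, C, N, h3, h4, h5⟩ := ih S1 hS10 (by omega)
      refine ⟨D * A, C, N + 1, ?_, h4, ?_⟩
      · rw [hS1, h3, mul_assoc]
      · rw [pow_succ, mul_comm]
        exact mul_dvd_mul h5 hDP

/-- Polynomials which are idempotent modulo `S`. -/
lemma exists_idem {ι : Type} [Fintype ι] [DecidableEq ι] (P : ι → ℚ[X])
    (hco : ∀ i j, i ≠ j → IsCoprime (P i) (P j)) (S : ℚ[X]) (hS : S ≠ 0)
    (hdvd : ∀ i, P i ∣ S) :
    ∃ E : ι → ℚ[X], (∀ i, S ∣ E i * E i - E i) ∧ (∀ i j, i ≠ j → S ∣ E i * E j) ∧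
      (∀ i, P i ∣ E i - 1) ∧ ∀ i j, i ≠ j → P j ∣ E i := by
  choose A C N hAC hCP hAP using fun i => split_part (P i) S.natDegree S hS le_rfl
  have hcoAC : ∀ i, IsCoprime (A i) (C i) := fun i =>
    (((hCP i).pow_right (n := N i)).of_isCoprime_of_dvd_right (hAP i)).symm
  have hPA : ∀ i, P i ∣ A i := fun i => by
    have h1 : P i ∣ A i * C i := by rw [← hAC i]; exact hdvd i
    exact (hCP i).symm.dvd_of_dvd_mul_right h1
  have hAA : ∀ i j, i ≠ j → IsCoprime (A i) (A j) := fun i j hij =>
    (((hco i j hij).pow (m := N i) (n := N j)).of_isCoprime_of_dvd_left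
      (hAP i)).of_isCoprime_of_dvd_right (hAP j)
  have hACj : ∀ i j, i ≠ j → A i ∣ C j := fun i j hij => by
    have h1 : A i ∣ A j * C j := by
      rw [← hAC j, hAC i]; exact dvd_mul_right _ _
    exact (hAA i j hij).dvd_of_dvd_mul_left h1
  choose u v huv using hcoAC
  refine ⟨fun i => v i * C i, ?_, ?_, ?_, ?_⟩
  · intro i
    have h1 : v i * C i * (v i * C i) - v i * C i = A i * C i * (-(u i * v i)) := by
      have h2 : v i * C i = 1 - u i * A i := by rw [← huv i]; ring
      calc v i * C i * (v i * C i) - v i * C i = v i * C i * (v i * C i - 1) := by ring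
        _ = v i * C i * (1 - u i * A i - 1) := by rw [← h2]
        _ = A i * C i * (-(u i * v i)) := by ring
    rw [h1, ← hAC i]
    exact dvd_mul_right _ _
  · intro i j hij
    obtain ⟨w, hw⟩ := hACj i j hij
    have h1 : v i * C i * (v j * C j) = A i * C i * (v i * v j * w) := by
      rw [hw]; ring
    rw [h1, ← hAC i]
    exact dvd_mul_right _ _
  · intro i
    have h1 : v i * C i - 1 = -(u i) * A i := by rw [← huv i]; ring
    rw [h1]
    exact (hPA i).mul_left _
  · intro i j hij
    exact ((hPA j).trans (hACj j i hij.symm)).mul_left _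

universe u v w

/-- **The dichotomy for the algebra generated by `F`.** -/
theorem frob_law {ι : Type} [Fintype ι] [DecidableEq ι] (i₀ : ι) {A : Type u} [Ring A]
    [Algebra ℚ A] {L : ι → Type v} [∀ i, Ring (L i)] (cl : ∀ i, A →+* L i) (F : A)
    (P : ι → ℚ[X]) (hP0 : ∀ i, P i ≠ 0) (hco : ∀ i j, i ≠ j → IsCoprime (P i) (P j))
    (hP : ∀ i, cl i (aeval F (P i)) = 0) :
    (∃ π : ι → A, (∀ i, π i ∈ Algebra.adjoin ℚ {F}) ∧ (∀ i, π i * π i = π i) ∧
      (∀ i j, i ≠ j → π i * π j = 0) ∧ ∑ i, π i = 1 ∧ (∀ i, cl i (π i) = 1) ∧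
      ∀ i j, i ≠ j → cl j (π i) = 0) ∨
    LinearIndependent ℚ (fun n : ℕ => F ^ n * aeval F (∏ i, P i)) := by
  classical
  let ψ : ℚ[X] →ₗ[ℚ] A :=
    { toFun := fun q => aeval F (q * ∏ i, P i)
      map_add' := fun x y => by rw [add_mul, map_add]
      map_smul' := fun t x => by rw [smul_mul_assoc, map_smul]; rfl }
  by_cases hker : LinearMap.ker ψ = ⊥
  · right
    have h1 := (Polynomial.basisMonomials ℚ).linearIndependent.map' ψ hker
    have h2 : (ψ ∘ ⇑(Polynomial.basisMonomials ℚ)) =
        fun n : ℕ => F ^ n * aeval F (∏ i, P i) := by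
      funext n
      change aeval F ((Polynomial.basisMonomials ℚ) n * ∏ i, P i) = _
      rw [map_mul, Polynomial.coe_basisMonomials, aeval_monomial, map_one, one_mul]
    rwa [h2] at h1
  · left
    obtain ⟨q, hq, hq0⟩ := (Submodule.ne_bot_iff _).1 hker
    have hS : aeval F (q * ∏ i, P i) = 0 := hq
    have hS0 : q * ∏ i, P i ≠ 0 := mul_ne_zero hq0 (Finset.prod_ne_zero_iff.2 fun i _ => hP0 i)
    obtain ⟨E, h1, h2, h3, h4⟩ := exists_idem P hco (q * ∏ i, P i) hS0
      (fun i => (Finset.dvd_prod_of_mem P (Finset.mem_univ i)).mul_left q)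
    have hz : ∀ p : ℚ[X], (q * ∏ i, P i) ∣ p → aeval F p = 0 := by
      rintro _ ⟨r, rfl⟩
      rw [map_mul, hS, zero_mul]
    have hc : ∀ i (p : ℚ[X]), P i ∣ p → cl i (aeval F p) = 0 := by
      rintro i _ ⟨r, rfl⟩
      rw [map_mul, map_mul, hP i, zero_mul]
    have e1 : ∀ i, aeval F (E i) * aeval F (E i) = aeval F (E i) := by
      intro i
      have h := hz _ (h1 i)
      rwa [map_sub, map_mul, sub_eq_zero] at h
    have e2 : ∀ i j, i ≠ j → aeval F (E i) * aeval F (E j) = 0 := by
      intro i j hij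
      rw [← map_mul]
      exact hz _ (h2 i j hij)
    have e3 : ∀ i, cl i (aeval F (E i)) = 1 := by
      intro i
      have h := hc i _ (h3 i)
      rwa [map_sub, map_one, map_sub, map_one, sub_eq_zero] at h
    have e4 : ∀ i j, i ≠ j → cl j (aeval F (E i)) = 0 := fun i j hij => hc j _ (h4 i j hij)
    set s : A := ∑ i, aeval F (E i) with hs
    have s1 : ∀ i, aeval F (E i) * s = aeval F (E i) := by
      intro i
      rw [hs, Finset.mul_sum, Finset.sum_eq_single i]
      · exact e1 i
      · intro j _ hj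
        exact e2 i j hj.symm
      · intro h
        exact absurd (Finset.mem_univ i) h
    have s2 : ∀ i, s * aeval F (E i) = aeval F (E i) := by
      intro i
      rw [hs, Finset.sum_mul, Finset.sum_eq_single i]
      · exact e1 i
      · intro j _ hj
        exact e2 j i hj
      · intro h
        exact absurd (Finset.mem_univ i) h
    have s3 : s * s = s := by
      conv_lhs => rw [hs, Finset.sum_mul]
      rw [hs]
      exact Finset.sum_congr rfl fun i _ => s1 i
    have s4 : ∀ i, cl i s = 1 := by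
      intro i
      rw [hs, map_sum, Finset.sum_eq_single i]
      · exact e3 i
      · intro j _ hj
        exact e4 j i hj
      · intro h
        exact absurd (Finset.mem_univ i) h
    have hmem : ∀ i, aeval F (E i) ∈ Algebra.adjoin ℚ {F} := fun i =>
      aeval_mem_adjoin_singleton ℚ F
    have hsm : s ∈ Algebra.adjoin ℚ {F} := Subalgebra.sum_mem _ fun i _ => hmem i
    refine ⟨fun i => aeval F (E i) + if i = i₀ then 1 - s else 0, ?_, ?_, ?_, ?_, ?_, ?_⟩
    · intro i
      refine Subalgebra.add_mem _ (hmem i) ?_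
      split_ifs
      · exact Subalgebra.sub_mem _ (Subalgebra.one_mem _) hsm
      · exact Subalgebra.zero_mem _
    · intro i
      dsimp only
      split_ifs
      · have t1 : aeval F (E i) * (1 - s) = 0 := by rw [mul_sub, mul_one, s1, sub_self]
        have t2 : (1 - s) * aeval F (E i) = 0 := by rw [sub_mul, one_mul, s2, sub_self]
        have t3 : (1 - s) * (1 - s) = 1 - s := by
          rw [mul_sub, mul_one, sub_mul, one_mul, s3, sub_self, sub_zero]
        rw [add_mul, mul_add, mul_add, e1, t1, t2, t3, add_zero, zero_add]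
      · rw [add_zero]; exact e1 i
    · intro i j hij
      dsimp only
      split_ifs with hi hj hj
      · exact absurd (hi.trans hj.symm) hij
      · have t2 : (1 - s) * aeval F (E j) = 0 := by rw [sub_mul, one_mul, s2, sub_self]
        rw [add_zero, add_mul, e2 i j hij, t2, add_zero]
      · have t1 : aeval F (E i) * (1 - s) = 0 := by rw [mul_sub, mul_one, s1, sub_self]
        rw [add_zero, mul_add, e2 i j hij, t1, add_zero]
      · rw [add_zero, add_zero]; exact e2 i j hij
    · rw [Finset.sum_add_distrib, Finset.sum_ite_eq' Finset.univ i₀ (fun _ => 1 - s),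
        if_pos (Finset.mem_univ i₀), ← hs, add_sub_cancel]
    · intro i
      dsimp only
      split_ifs
      · rw [map_add, e3, map_sub, map_one, s4, sub_self, add_zero]
      · rw [add_zero]; exact e3 i
    · intro i j hij
      dsimp only
      split_ifs
      · rw [map_add, e4 i j hij, map_sub, map_one, s4, sub_self, add_zero]
      · rw [add_zero]; exact e4 i j hij

end Pool.Agent.X312.CK
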